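import Pool.Agent.H16.CX.Basic

/-!
# (UNI) the restriction monoid of a continuous action on a compact space
-/

set_option autoImplicit false

open Set Topology Filter MeasureTheory

namespace Pool.Agent.H3.CX

open Pool.Agent.H16.CX

attribute [local instance] Pool.Agent.H71.permTop

/-- neighbourhoods of the identity contain the stabilizers of finite sets -/
lemma exists_VS {U : Set (Equiv.Perm ℕ)} (hU : U ∈ 𝓝 (1 : Equiv.Perm ℕ)) :
    ∃ n : ℕ, VS n ⊆ U := by
  by_contra hcon
  push Not at hcon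
  have h1 : ∀ n : ℕ, ∃ g : Equiv.Perm ℕ, g ∈ VS n ∧ g ∉ U := fun n => by
    obtain ⟨g, hg, hgU⟩ := Set.not_subset.1 (hcon n)
    exact ⟨g, hg, hgU⟩
  choose g hg hgU using h1
  have h2 : Tendsto g atTop (𝓝 1) := by
    refine Pool.Agent.H71.tendsto_perm (fun a => ?_) (fun a => ?_)
    · filter_upwards [eventually_gt_atTop a] with n hn
      exact hg n a hn
    · filter_upwards [eventually_gt_atTop a] with n hn
      rw [Equiv.symm_apply_eq]
      exact (hg n a hn).symm
  obtain ⟨N, hN⟩ := (h2.eventually_mem hU).exists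
  exact hgU N hN

section

variable {X : Type} [MetricSpace X] [CompactSpace X] [MulAction (Equiv.Perm ℕ) X]

/-- Step 1 -/
lemma uni_step (hc : Continuous (fun p : Equiv.Perm ℕ × X => p.1 • p.2)) {e : ℝ} (he : 0 < e) :
    ∃ n : ℕ, ∀ g ∈ VS n, ∀ x : X, dist (g • x) x ≤ e := by
  have hF : Continuous fun p : Equiv.Perm ℕ × X => dist (p.1 • p.2) p.2 :=
    hc.dist continuous_snd
  have hO : IsOpen {p : Equiv.Perm ℕ × X | dist (p.1 • p.2) p.2 < e} :=
    isOpen_lt hF continuous_const
  have hsub : ({(1 : Equiv.Perm ℕ)} : Set (Equiv.Perm ℕ)) ×ˢ (univ : Set X) ⊆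
      {p : Equiv.Perm ℕ × X | dist (p.1 • p.2) p.2 < e} := by
    rintro ⟨g, x⟩ ⟨hg, -⟩
    have hg' : g = 1 := hg
    subst hg'
    show dist ((1 : Equiv.Perm ℕ) • x) x < e
    rw [one_smul, dist_self]
    exact he
  obtain ⟨U, W, hU, -, hU1, hW, hUW⟩ := generalized_tube_lemma isCompact_singleton isCompact_univ
    hO hsub
  obtain ⟨n, hn⟩ := exists_VS (hU.mem_nhds (hU1 rfl))
  refine ⟨n, fun g hg x => ?_⟩
  have h1 : (g, x) ∈ U ×ˢ W := ⟨hn hg, hW (mem_univ x)⟩
  exact (show dist (g • x) x < e from hUW h1).le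

omit [CompactSpace X] in
/-- Step 2 -/
lemma uni_pair {n : ℕ} {e : ℝ} (hn : ∀ g ∈ VS n, ∀ x : X, dist (g • x) x ≤ e)
    {g h : Equiv.Perm ℕ} (hgh : ∀ i < n, g i = h i) (x : X) : dist (g⁻¹ • x) (h⁻¹ • x) ≤ e := by
  have h1 : g⁻¹ * h ∈ VS n := by
    intro i hi
    show g⁻¹ (h i) = i
    rw [← hgh i hi]
    exact g.symm_apply_apply i
  have h2 := hn _ h1 (h⁻¹ • x)
  rwa [← mul_smul, mul_assoc, mul_inv_cancel, mul_one] at h2

end

theorem pf_uni : T_UNI := by
  intro X _ _ _ hc
  choose gp hgp using exists_perm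
  have hC : ∀ (b : ℕ ↪ ℕ) (x : X), ∃ y : X, Tendsto (fun n => (gp b n)⁻¹ • x) atTop (𝓝 y) := by
    intro b x
    refine cauchySeq_tendsto_of_complete ?_
    rw [Metric.cauchySeq_iff]
    intro ε hε
    obtain ⟨N, hN⟩ := uni_step hc (show 0 < ε / 2 by positivity)
    refine ⟨N, fun m hm n hn => ?_⟩
    have := uni_pair hN (g := gp b m) (h := gp b n) (fun i hi => by
      rw [hgp b m i (by omega), hgp b n i (by omega)]) x
    linarith
  choose res hres using hC
  have R1 : ∀ (e : ℝ) (n : ℕ), (∀ g ∈ VS n, ∀ x : X, dist (g • x) x ≤ e) →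
      ∀ (b : ℕ ↪ ℕ) (g : Equiv.Perm ℕ), (∀ i < n, g i = b i) → ∀ x : X,
        dist (g⁻¹ • x) (res b x) ≤ e := by
    intro e n hn b g hg x
    refine le_of_tendsto (tendsto_const_nhds.dist (hres b x)) ?_
    filter_upwards [eventually_ge_atTop n] with m hm
    exact uni_pair hn (fun i hi => by rw [hg i hi, hgp b m i (by omega)]) x
  have hpe : ∀ (g : Equiv.Perm ℕ) (x : X), res (pe g) x = g⁻¹ • x := by
    intro g x
    refine (eq_of_dist_eq_zero (le_antisymm (le_of_forall_pos_le_add fun ε hε => ?_)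
      dist_nonneg)).symm
    obtain ⟨n, hn⟩ := uni_step hc hε
    have := R1 ε n hn (pe g) g (fun i _ => rfl) x
    linarith
  have hsm : ∀ g : Equiv.Perm ℕ, Continuous fun x : X => g • x := fun g =>
    hc.comp (continuous_const.prodMk continuous_id)
  refine ⟨⟨res, fun b => ?_, fun x => ?_, fun b c x => ?_, fun ε hε => ?_⟩, hpe⟩
  · -- continuity
    have h1 : TendstoUniformly (fun (n : ℕ) (x : X) => (gp b n)⁻¹ • x) (res b) atTop := by
      rw [Metric.tendstoUniformly_iff]
      intro ε hε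
      obtain ⟨n, hn⟩ := uni_step hc (show 0 < ε / 2 by positivity)
      filter_upwards [eventually_ge_atTop n] with m hm x
      have := R1 (ε / 2) n hn b (gp b m) (fun i hi => hgp b m i (by omega)) x
      rw [dist_comm]
      linarith
    exact h1.continuous (Eventually.frequently (Eventually.of_forall fun n => hsm _))
  · have h1 := hpe 1 x
    rw [inv_one, one_smul] at h1
    have h2 : pe 1 = Function.Embedding.refl ℕ := by
      ext i
      rfl
    rwa [h2] at h1
  · -- composition
    refine eq_of_dist_eq_zero (le_antisymm (le_of_forall_pos_le_add fun ε hε => ?_)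
      dist_nonneg)
    obtain ⟨n, hn⟩ := uni_step hc (show 0 < ε / 2 by positivity)
    have h1 : dist ((gp c n)⁻¹ • res b x) (res (c.trans b) x) ≤ ε / 2 := by
      have h2 : Tendsto (fun m => (gp c n)⁻¹ • ((gp b m)⁻¹ • x)) atTop
          (𝓝 ((gp c n)⁻¹ • res b x)) := ((hsm _).tendsto _).comp (hres b x)
      refine le_of_tendsto (h2.dist tendsto_const_nhds) ?_
      filter_upwards [eventually_gt_atTop ((Finset.range n).sup fun i => c i)] with m hm
      have h3 := R1 (ε / 2) n hn (c.trans b) (gp b m * gp c n) (fun i hi => by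
        show gp b m (gp c n i) = b (c i)
        rw [hgp c n i hi]
        have := Finset.le_sup (f := fun i => c i) (Finset.mem_range.2 hi)
        exact hgp b m _ (lt_of_le_of_lt this hm)) x
      rwa [mul_inv_rev, mul_smul] at h3
    have h4 := R1 (ε / 2) n hn c (gp c n) (fun i hi => hgp c n i hi) (res b x)
    have h5 := dist_triangle_left (res (c.trans b) x) (res c (res b x)) ((gp c n)⁻¹ • res b x)
    linarith
  · obtain ⟨n, hn⟩ := uni_step hc (show 0 < ε / 2 by positivity)
    refine ⟨n, fun b c hbc x => ?_⟩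
    have h1 := R1 (ε / 2) n hn b (gp b n) (fun i hi => hgp b n i hi) x
    have h2 := R1 (ε / 2) n hn c (gp b n) (fun i hi => by rw [hgp b n i hi, hbc i hi]) x
    have h3 := dist_triangle_left (res b x) (res c x) ((gp b n)⁻¹ • x)
    linarith

end Pool.Agent.H3.CX
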