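import Pool.Agent.H16.CX.Targets2
import Pool.Agent.H72.UV.Targets

/-!
# (SEP) thinning out a sequence of tuples with separated values
-/

set_option autoImplicit false

open Set Topology Filter MeasureTheory

namespace Pool.Agent.H3.CX

open Pool.Agent.H16.CX

theorem pf_sep (hR : Pool.Agent.H72.UV.T_RAM) : T_SEP := by
  classical
  intro X _ n F a δ hδ hsep
  obtain ⟨f, hf, v, hv⟩ := hR (n + 1) (Fin (n + 1) → (Fin n → Fin (n + 1) × Fin n) → Bool)
    inferInstance (fun u p q =>
      decide (dist (F (fun j => a (u (q j).1) (q j).2)) (F (a (u p))) < δ / 4))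
  refine ⟨fun i => f (2 * i), fun i j hij => hf (by omega), fun s c hc => ?_⟩
  by_contra hcon
  push Not at hcon
  choose t hts k hk using hc
  have hcard : (insert s (Finset.image t Finset.univ)).card ≤ n + 1 := by
    refine (Finset.card_insert_le _ _).trans (Nat.succ_le_succ ?_)
    refine Finset.card_image_le.trans ?_
    simp
  obtain ⟨E, hE, hEc⟩ := Infinite.exists_superset_card_eq _ _ hcard
  have hran : ∀ x ∈ E, ∃ i : Fin (n + 1), E.orderEmbOfFin hEc i = x := by
    intro x hx
    have h1 : x ∈ Set.range (E.orderEmbOfFin hEc) := by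
      rw [Finset.range_orderEmbOfFin]
      exact hx
    exact h1
  obtain ⟨p, hp⟩ := hran s (hE (Finset.mem_insert_self _ _))
  have hq : ∀ j, ∃ i : Fin (n + 1), E.orderEmbOfFin hEc i = t j := fun j =>
    hran _ (hE (Finset.mem_insert_of_mem (Finset.mem_image_of_mem _ (Finset.mem_univ _))))
  choose q hq using hq
  have hqp : ∀ j, q j ≠ p := by
    intro j h
    apply hts j
    rw [← hq j, h, hp]
  have hmono : StrictMono (E.orderEmbOfFin hEc) := (E.orderEmbOfFin hEc).strictMono
  have hu : StrictMono fun i : Fin (n + 1) => 2 * E.orderEmbOfFin hEc i := fun i j hij => by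
    have := hmono hij
    show 2 * _ < 2 * _
    omega
  have hu' : StrictMono fun i : Fin (n + 1) =>
      if i = p then 2 * s + 1 else 2 * E.orderEmbOfFin hEc i := fun i j hij => by
    have h1 := hmono hij
    show (if i = p then 2 * s + 1 else 2 * E.orderEmbOfFin hEc i) <
      if j = p then 2 * s + 1 else 2 * E.orderEmbOfFin hEc j
    split_ifs with h2 h3 h3
    · subst h2
      subst h3
      exact absurd hij (lt_irrefl _)
    · rw [← hp, ← h2]
      omega
    · rw [← hp, ← h3]
      omega
    · omega
  have h1 := congrFun (congrFun (hv _ hu) p) fun j => (q j, k j)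
  have h2 := congrFun (congrFun (hv _ hu') p) fun j => (q j, k j)
  rw [← h2] at h1
  have e1 : (fun j => a (f (2 * E.orderEmbOfFin hEc (q j))) (k j)) = c := by
    funext j
    rw [hq, hk]
  have e2 : (fun j => a (f (if q j = p then 2 * s + 1 else 2 * E.orderEmbOfFin hEc (q j)))
      (k j)) = c := by
    funext j
    rw [if_neg (hqp j), hq, hk]
  simp only [Function.comp_apply, e1, e2, hp, if_true] at h1
  have h3 : dist (F c) (F (a (f (2 * s + 1)))) < δ / 4 := by
    have h4 : decide (dist (F c) (F (a (f (2 * s)))) < δ / 4) = true := decide_eq_true hcon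
    rw [h4] at h1
    exact of_decide_eq_true h1.symm
  have h5 := hsep (f (2 * s)) (f (2 * s + 1)) fun h => by
    have := hf.injective h
    omega
  have h6 := dist_triangle_left (F (a (f (2 * s)))) (F (a (f (2 * s + 1)))) (F c)
  linarith

end Pool.Agent.H3.CX
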