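import Pool.Agent.H16.CX.Targets

/-!
# (SHF) the shifted action
-/

set_option autoImplicit false

open Set Topology Filter MeasureTheory

namespace Pool.Agent.H3.CX

open Pool.Agent.H16.CX

/-- the shift of an injection -/
def sh (k : ℕ) (b : ℕ ↪ ℕ) : ℕ ↪ ℕ where
  toFun i := if i < k then i else k + b (i - k)
  inj' := by
    intro i j h
    simp only at h
    split_ifs at h with h1 h2 h2
    · exact h
    · omega
    · omega
    · have := b.injective (Nat.add_left_cancel h)
      omega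

lemma sh_lt {k : ℕ} (b : ℕ ↪ ℕ) {i : ℕ} (h : i < k) : sh k b i = i := if_pos h

lemma sh_ge {k : ℕ} (b : ℕ ↪ ℕ) {i : ℕ} (h : ¬ i < k) : sh k b i = k + b (i - k) := if_neg h

lemma sh_refl (k : ℕ) : sh k (Function.Embedding.refl ℕ) = Function.Embedding.refl ℕ := by
  ext i
  by_cases h : i < k
  · rw [sh_lt _ h]
    rfl
  · rw [sh_ge _ h]
    show k + (i - k) = i
    omega

lemma sh_trans (k : ℕ) (b c : ℕ ↪ ℕ) : sh k (c.trans b) = (sh k c).trans (sh k b) := by
  ext i
  show sh k (c.trans b) i = sh k b (sh k c i)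
  by_cases h : i < k
  · rw [sh_lt _ h, sh_lt _ h, sh_lt _ h]
  · rw [sh_ge _ h, sh_ge c h, sh_ge b (by omega), Nat.add_sub_cancel_left]
    rfl

theorem pf_shf : T_SHF := by
  intro X _ R k
  refine ⟨⟨fun b => R.res (sh k b), fun b => R.cont _, fun x => ?_, fun b c x => ?_,
    fun ε hε => ?_⟩, fun b b' h1 h2 x => ?_⟩
  · show R.res (sh k (Function.Embedding.refl ℕ)) x = x
    rw [sh_refl, R.one]
  · show R.res (sh k (c.trans b)) x = R.res (sh k c) (R.res (sh k b) x)
    rw [sh_trans, R.comp]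
  · obtain ⟨n, hn⟩ := R.unif ε hε
    refine ⟨n, fun b c hbc x => hn _ _ (fun i hi => ?_) x⟩
    by_cases h : i < k
    · rw [sh_lt _ h, sh_lt _ h]
    · rw [sh_ge _ h, sh_ge _ h, hbc (i - k) (by omega)]
  · show R.res (sh k b) x = R.res b' x
    have e : sh k b = b' := by
      ext i
      by_cases h : i < k
      · rw [sh_lt _ h, h1 i h]
      · rw [sh_ge _ h, ← h2 (i - k)]
        congr 1
        omega
    rw [e]

end Pool.Agent.H3.CX
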